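import Pool.Agent.K.MP_c53d0e_pr.C0

set_option autoImplicit false

namespace Pool.Agent.Results.MP_c53d0e_pr.CliqueAsymptotic

open Filter Topology Pool.Agent.SemiRandom

/-- For complete `s`-graphs the threshold exponent is `r - (1 + o(1)) / C(k-1, s-1)` as
`k → ∞`. -/
theorem result : ∀ r s : ℕ, 2 ≤ r → r < s → ∀ ε : ℝ, 0 < ε → ∃ k0 : ℕ, ∀ k ≥ k0,
    Tendsto (tauQ (clique k s) r s) (𝓝[<] 1) (𝓝 (tau (clique k s) r s)) ∧
    ((r - (1 + ε) / (k - 1).choose (s - 1) : ℝ) : EReal) ≤ tau (clique k s) r s ∧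
    tau (clique k s) r s ≤ ((r - 1 / (k - 1).choose (s - 1) : ℝ) : EReal) := by
  intro r s hr hrs ε hε
  obtain ⟨k0, h⟩ := main (by omega) hrs hε
  exact ⟨k0, fun k hk => ⟨tau_tendsto _ r s, h k hk⟩⟩

end Pool.Agent.Results.MP_c53d0e_pr.CliqueAsymptotic
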