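import Pool.Agent.K.MP_c53d0e_pr.C20

set_option autoImplicit false

namespace Pool.Agent.Results.MP_c53d0e_pr.UndecidableFixed

open Pool.Agent.SemiRandom

/-- For every fixed `2 ≤ r < s`, the non-empty `s`-graphs whose threshold exponent in the `(r,s)`
semi-random process is at most `r - 8r / (240 r (r+1) + 1)` are not recognised by any recursively
enumerable predicate; in particular no algorithm decides this comparison. -/
theorem result (r s : ℕ) (hr : 2 ≤ r) (hs : r < s) :
    ¬ ∃ p : ℕ × List (List ℕ) → Prop, REPred p ∧ ∀ (k : ℕ) (L : List (List ℕ)),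
      (graphOf k L).Nonempty → (∀ e ∈ graphOf k L, e.card = s) →
      (p (k, L) ↔ tau (graphOf k L) r s ≤ ((r - 8 * r / (240 * r * (r + 1) + 1) : ℝ) : EReal)) :=
  Fix.de_eq r ▸ Fix.not_re_fixed r s hr hs

end Pool.Agent.Results.MP_c53d0e_pr.UndecidableFixed
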